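import Pool.Agent.H590.PL.Stm

set_option autoImplicit false

/-!
# PL590 K1 (helper52, for helper590): the kernel inequality
-/

namespace Pool.Agent.H52.PL590

/-- the quadratic form of the mixed case -/
theorem Q_nonneg {ρ s α β : ℝ} (hρ : 0 < ρ) (hs : 0 < s) (hρs : ρ + s = 1) (hα : 0 < α) (hβ : 0 < β) :
    0 ≤ ρ ^ 3 * α ^ 2 + s ^ 3 * β ^ 2 + (1 - 5 * (ρ * s)) * (α * β) := by
  have hx : ρ * s ≤ 1 / 4 := by nlinarith [sq_nonneg (ρ - s)]
  have hx0 : 0 < ρ * s := mul_pos hρ hs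
  have hab : 0 < α * β := mul_pos hα hβ
  by_cases h : 5 * (ρ * s) ≤ 1
  · have : 0 ≤ (1 - 5 * (ρ * s)) * (α * β) := mul_nonneg (by linarith) hab.le
    positivity
  · have h := not_le.1 h
    set x := ρ * s with hxd
    have h1 : (5 * x - 1) ^ 2 ≤ 4 * x ^ 3 := by
      have : 0 ≤ (1 - 4 * x) * (6 * x - 1 - x ^ 2) := by
        refine mul_nonneg (by linarith) ?_
        nlinarith
      nlinarith
    have h2 : ((5 * x - 1) * (α * β)) ^ 2 ≤ (ρ ^ 3 * α ^ 2 + s ^ 3 * β ^ 2) ^ 2 := by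
      have h3 : (5 * x - 1) ^ 2 * (α * β) ^ 2 ≤ 4 * x ^ 3 * (α * β) ^ 2 :=
        mul_le_mul_of_nonneg_right h1 (sq_nonneg _)
      have h4 : (ρ ^ 3 * α ^ 2 + s ^ 3 * β ^ 2) ^ 2 - 4 * x ^ 3 * (α * β) ^ 2 = (ρ ^ 3 * α ^ 2 - s ^ 3 * β ^ 2) ^ 2 := by
        rw [hxd]
        ring
      have h5 := sq_nonneg (ρ ^ 3 * α ^ 2 - s ^ 3 * β ^ 2)
      rw [mul_pow]
      linarith
    have h6 := abs_le_of_sq_le_sq h2 (by positivity)
    have h7 := (le_abs_self _).trans h6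
    linarith

theorem alg {ρ s a b U V : ℝ} (hρ : 0 < ρ) (hs : 0 < s) (hρs : ρ + s = 1) (hab : a < b) (ha : a ≠ 0) (hb : b ≠ 0)
    (hU : 0 < U) (hV : 0 < V) (h1 : |a| ≤ |b| → V ≤ U ∧ |a| * U ≤ |b| * V) (h2 : |b| ≤ |a| → U ≤ V ∧ |b| * V ≤ |a| * U) :
    ρ * s * (b * V - a * U) ≤ (b - a) * (ρ ^ 3 * V + s ^ 3 * U) := by
  have hse : s = 1 - ρ := by linarith
  have hD : 0 < b - a := by linarith
  have k1 : (b - a) * (ρ ^ 3 * V + s ^ 3 * U) - ρ * s * (b * V - a * U) =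
      V * (b - a) * (ρ - s) ^ 2 + (U - V) * (s ^ 3 * (b - a) + ρ * s * a) := by
    rw [hse]
    ring
  have k2 : (b - a) * (ρ ^ 3 * V + s ^ 3 * U) - ρ * s * (b * V - a * U) =
      U * (b - a) * (ρ - s) ^ 2 + (V - U) * (ρ ^ 3 * (b - a) - ρ * s * b) := by
    rw [hse]
    ring
  have n1 : 0 ≤ V * (b - a) * (ρ - s) ^ 2 := by positivity
  have n2 : 0 ≤ U * (b - a) * (ρ - s) ^ 2 := by positivity
  rcases lt_or_gt_of_ne ha with ha' | ha'
  · rcases lt_or_gt_of_ne hb with hb' | hb'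
    · -- a < b < 0
      have h3 := (h2 (by rw [abs_of_neg ha', abs_of_neg hb']; linarith)).1
      have h4 : 0 ≤ ρ ^ 3 * (b - a) - ρ * s * b := by
        have : 0 ≤ ρ * s * (-b) := mul_nonneg (mul_pos hρ hs).le (by linarith)
        have : 0 ≤ ρ ^ 3 * (b - a) := by positivity
        linarith
      have h5 := mul_nonneg (sub_nonneg.2 h3) h4
      linarith
    · -- a < 0 < b
      have hQ := Q_nonneg hρ hs hρs (neg_pos.2 ha') hb'
      rw [abs_of_neg ha', abs_of_pos hb'] at h1 h2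
      rcases le_total (-a) b with h | h
      · obtain ⟨h3, h4⟩ := h1 h
        by_cases hc : 0 ≤ s ^ 3 * (b - a) + ρ * s * a
        · have h5 := mul_nonneg (sub_nonneg.2 h3) hc
          linarith
        · have hc := not_le.1 hc
          have h6 : (-a) * ((b - a) * (ρ ^ 3 * V + s ^ 3 * U) - ρ * s * (b * V - a * U)) =
              V * (ρ ^ 3 * (-a) ^ 2 + s ^ 3 * b ^ 2 + (1 - 5 * (ρ * s)) * ((-a) * b)) +
              (-(s ^ 3 * (b - a) + ρ * s * a)) * (b * V - (-a) * U) := by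
            rw [hse]
            ring
          have h7 : 0 ≤ (-a) * ((b - a) * (ρ ^ 3 * V + s ^ 3 * U) - ρ * s * (b * V - a * U)) := by
            rw [h6]
            exact add_nonneg (mul_nonneg hV.le hQ) (mul_nonneg (by linarith) (by linarith))
          have h8 := nonneg_of_mul_nonneg_right h7 (neg_pos.2 ha')
          linarith
      · obtain ⟨h3, h4⟩ := h2 h
        by_cases hc : 0 ≤ ρ ^ 3 * (b - a) - ρ * s * b
        · have h5 := mul_nonneg (sub_nonneg.2 h3) hc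
          linarith
        · have hc := not_le.1 hc
          have h6 : b * ((b - a) * (ρ ^ 3 * V + s ^ 3 * U) - ρ * s * (b * V - a * U)) =
              U * (ρ ^ 3 * (-a) ^ 2 + s ^ 3 * b ^ 2 + (1 - 5 * (ρ * s)) * ((-a) * b)) +
              (-(ρ ^ 3 * (b - a) - ρ * s * b)) * ((-a) * U - b * V) := by
            rw [hse]
            ring
          have h7 : 0 ≤ b * ((b - a) * (ρ ^ 3 * V + s ^ 3 * U) - ρ * s * (b * V - a * U)) := by
            rw [h6]
            exact add_nonneg (mul_nonneg hU.le hQ) (mul_nonneg (by linarith) (by linarith))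
          have h8 := nonneg_of_mul_nonneg_right h7 hb'
          linarith
  · -- 0 < a < b
    have hb' : 0 < b := by linarith
    have h3 := (h1 (by rw [abs_of_pos ha', abs_of_pos hb']; linarith)).1
    have h4 : 0 ≤ s ^ 3 * (b - a) + ρ * s * a := by positivity
    have h5 := mul_nonneg (sub_nonneg.2 h3) h4
    linarith

theorem mono {p x y : ℝ} (hp1 : 1 < p) (hp2 : p < 2) (hx : 0 < x) (hxy : x ≤ y) :
    y ^ (p - 2) ≤ x ^ (p - 2) ∧ x * x ^ (p - 2) ≤ y * y ^ (p - 2) := by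
  have hy : 0 < y := hx.trans_le hxy
  refine ⟨Real.rpow_le_rpow_of_nonpos hx hxy (by linarith), ?_⟩
  have e : ∀ z : ℝ, 0 < z → z * z ^ (p - 2) = z ^ (p - 1) := by
    intro z hz
    rw [show p - 1 = (p - 2) + 1 by ring, Real.rpow_add_one hz.ne', mul_comm]
  rw [e x hx, e y hy]
  exact Real.rpow_le_rpow hx.le hxy (by linarith)

theorem K1 : H590PL.S_K1 := by
  intro p ρ a b hp1 hp2 hρ0 hρ1 hab ha hb
  exact alg hρ0 (by linarith) (by ring) hab ha hb (Real.rpow_pos_of_pos (abs_pos.2 ha) _) (Real.rpow_pos_of_pos (abs_pos.2 hb) _)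
    (fun h => mono hp1 hp2 (abs_pos.2 ha) h) (fun h => mono hp1 hp2 (abs_pos.2 hb) h)

end Pool.Agent.H52.PL590
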